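import Pool.Agent.Run7.h383.EA.Basic

set_option autoImplicit false

/-!
# The fixed fields of the automorphisms of the complex exponential field

Let `σ` be an exponential automorphism of `ℂ` and let `F` be its fixed field.

(1) If `σ i = i` then `F` is of one of two kinds.

(A) All logarithms of all numbers of `F` are in `F`, and `F` is algebraically closed; all finite
orbits of `σ` have one element. Then `σ` fixes every number of the least subfield of `ℂ` which is
closed under exponentials, all logarithms, and roots of polynomials. (These include all the numbers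
given by closed forms.)

(B) There is a number `z` with `σ z = z + 2 π i`. Then every nonzero number `b` of `F` is
`exp (j z + w)` for a unique integer `j` and some `w` in `F`; and for every `n ≥ 1` the fixed field of
`σ ^ n` is the cyclic extension `F (exp (z / n))` of `F` of degree `n`: its elements are
`∑ c l exp (l z / n)` with `c l` in `F`, and `exp (z / n)` has exactly `n` conjugates under `σ`. All numbers
algebraic over `F` are in the union of these fields.

So the absolute Galois group of the fixed field is trivial or the group of profinite integers, while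
for automorphisms of the field `ℂ` other procyclic groups occur.

(2) If `σ i = -i` then the exponential function is a bijection from `F` onto its nonzero squares,
every number of `F` is plus or minus a square, and either (A) the fixed field of `σ ^ 2` is of the first
kind (so `F` is real closed), or (B) there is a number `z` with `σ z = -z - π i`, and `-1` is a sum of two
squares in `F`.

Proof: Kummer theory with logarithms. If `exp w` is fixed then `σ w = w + 2 π i k` for an INTEGER `k`,
and if `k ≠ 0` then `z = w / k` is as in (B). The elements of finite orbits are sums of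
eigenvectors (discrete Fourier transform), whose powers are fixed.
-/

namespace Pool.Agent.Results.MP_2315c8_nt.FixedFields

open Finset Function Run7.h383.EA

/-- the numbers which are obtained from `1` by the field operations, exponentials, all logarithms,
and roots of nonzero polynomials -/
inductive Elementary : ℂ → Prop
  | one : Elementary 1
  | sub (a b : ℂ) : Elementary a → Elementary b → Elementary (a - b)
  | mul (a b : ℂ) : Elementary a → Elementary b → Elementary (a * b)
  | inv (a : ℂ) : Elementary a → Elementary a⁻¹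
  | exp (a : ℂ) : Elementary a → Elementary (Complex.exp a)
  | log (a : ℂ) : Elementary (Complex.exp a) → Elementary a
  | root (p : Polynomial ℂ) : p ≠ 0 → (∀ i, Elementary (p.coeff i)) →
      ∀ x : ℂ, p.eval x = 0 → Elementary x

theorem caseA {σ : ℂ ≃+* ℂ} (hσ : ∀ z : ℂ, σ (Complex.exp z) = Complex.exp (σ z))
    (hI : σ Complex.I = Complex.I)
    (hA : ∀ w : ℂ, σ (Complex.exp w) = Complex.exp w → σ w = w) (m : ℕ) (hm : 1 ≤ m) (x : ℂ)
    (hx : σ^[m] x = x) : σ x = x := by
  have hω : IsPrimitiveRoot (Complex.exp (T / m)) m :=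
    Complex.isPrimitiveRoot_exp m (by omega)
  have hfix := root_fixed hσ hI m
  have key : ∀ l, σ (L σ (Complex.exp (T / m)) m l x) = L σ (Complex.exp (T / m)) m l x := by
    intro l
    have h1 := L_apply hω.pow_eq_one hfix l hx
    generalize L σ (Complex.exp (T / m)) m l x = b at h1
    by_cases hb : b = 0
    · rw [hb, map_zero]
    have h2 : σ (b ^ m) = b ^ m := by
      have h3 : (Complex.exp (T / m) ^ l * σ b) ^ m = b ^ m := by rw [h1]
      have h4 : (Complex.exp (T / m) ^ l) ^ m = 1 := by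
        rw [← pow_mul, mul_comm, pow_mul, hω.pow_eq_one, one_pow]
      rw [mul_pow, h4, one_mul] at h3
      rw [map_pow]
      exact h3
    have h5 : Complex.exp (Complex.log b) = b := Complex.exp_log hb
    have h6 : Complex.exp (m * Complex.log b) = b ^ m := by
      rw [Complex.exp_nat_mul, h5]
    have h7 : σ (m * Complex.log b) = m * Complex.log b := by
      apply hA
      rw [h6]
      exact h2
    rw [map_mul, map_natCast] at h7
    have hm0 : (m : ℂ) ≠ 0 := by exact_mod_cast (by omega : m ≠ 0)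
    have h8 : σ (Complex.log b) = Complex.log b := mul_left_cancel₀ hm0 h7
    rw [← h5, hσ, h8]
  have h1 := sum_L (σ := σ) hm hω x
  have h2 : σ ((m : ℂ) * x) = m * x := by
    rw [← h1, map_sum]
    exact sum_congr rfl fun l _ => key l
  rw [map_mul, map_natCast] at h2
  have hm0 : (m : ℂ) ≠ 0 := by exact_mod_cast (by omega : m ≠ 0)
  exact mul_left_cancel₀ hm0 h2

theorem caseB_sum {σ : ℂ ≃+* ℂ} (hσ : ∀ z : ℂ, σ (Complex.exp z) = Complex.exp (σ z))
    (hI : σ Complex.I = Complex.I) {z : ℂ} (hz : σ z = z + T) (n : ℕ) (hn : 1 ≤ n) (x : ℂ)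
    (hx : σ^[n] x = x) :
    ∃ c : ℕ → ℂ, (∀ l, σ (c l) = c l) ∧ x = ∑ l ∈ range n, c l * Complex.exp (z / n) ^ l := by
  have hω0 : IsPrimitiveRoot (Complex.exp (T / n)) n :=
    Complex.isPrimitiveRoot_exp n (by omega)
  have hω : IsPrimitiveRoot (Complex.exp (T / n))⁻¹ n := hω0.inv
  have hfix : σ (Complex.exp (T / n))⁻¹ = (Complex.exp (T / n))⁻¹ := by
    rw [map_inv₀, root_fixed hσ hI n]
  have hn0 : (n : ℂ) ≠ 0 := by exact_mod_cast (by omega : n ≠ 0)
  have hu : σ (Complex.exp (z / n)) = Complex.exp (z / n) * Complex.exp (T / n) := by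
    rw [hσ, map_div₀, hz, map_natCast, ← Complex.exp_add]
    congr 1
    ring
  have hu0 : Complex.exp (z / n) ≠ 0 := Complex.exp_ne_zero _
  have hT0 : Complex.exp (T / n) ≠ 0 := Complex.exp_ne_zero _
  refine ⟨fun l => (L σ (Complex.exp (T / n))⁻¹ n l x) / (n * Complex.exp (z / n) ^ l), ?_, ?_⟩
  · intro l
    have h1 := L_apply hω.pow_eq_one hfix l hx
    have h2 : σ (L σ (Complex.exp (T / n))⁻¹ n l x) =
        Complex.exp (T / n) ^ l * L σ (Complex.exp (T / n))⁻¹ n l x := by
      have h3 : Complex.exp (T / n) ^ l * (((Complex.exp (T / n))⁻¹) ^ l *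
          σ (L σ (Complex.exp (T / n))⁻¹ n l x)) = σ (L σ (Complex.exp (T / n))⁻¹ n l x) := by
        rw [← mul_assoc, ← mul_pow, mul_inv_cancel₀ hT0, one_pow, one_mul]
      rw [← h3, h1]
    rw [map_div₀, map_mul, map_natCast, map_pow, hu, h2, mul_pow]
    field_simp
  · have h1 := sum_L (σ := σ) hn hω x
    have h2 : ∀ l ∈ range n, (L σ (Complex.exp (T / n))⁻¹ n l x) /
        (n * Complex.exp (z / n) ^ l) * Complex.exp (z / n) ^ l =
        (L σ (Complex.exp (T / n))⁻¹ n l x) / n := by
      intro l _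
      have : Complex.exp (z / n) ^ l ≠ 0 := pow_ne_zero _ hu0
      field_simp
    rw [sum_congr rfl h2, ← sum_div, h1]
    field_simp

theorem caseB_period {σ : ℂ ≃+* ℂ} (hσ : ∀ z : ℂ, σ (Complex.exp z) = Complex.exp (σ z))
    (hI : σ Complex.I = Complex.I) {z : ℂ} (hz : σ z = z + T) (n : ℕ) (hn : 1 ≤ n) (m : ℕ) :
    σ^[m] (Complex.exp (z / n)) = Complex.exp (z / n) ↔ n ∣ m := by
  have hω : IsPrimitiveRoot (Complex.exp (T / n)) n :=
    Complex.isPrimitiveRoot_exp n (by omega)
  have hu : σ (Complex.exp (z / n)) = Complex.exp (z / n) * Complex.exp (T / n) := by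
    rw [hσ, map_div₀, hz, map_natCast, ← Complex.exp_add]
    congr 1
    ring
  have h1 : ∀ m : ℕ, σ^[m] (Complex.exp (z / n)) =
      Complex.exp (z / n) * Complex.exp (T / n) ^ m := by
    intro m
    induction m with
    | zero => simp
    | succ m ih =>
      rw [iterate_succ_apply', ih, map_mul, map_pow, root_fixed hσ hI n, hu, pow_succ]
      ring
  rw [h1]
  constructor
  · intro h
    have h2 : Complex.exp (T / n) ^ m = 1 := by
      have h3 : Complex.exp (z / n) * Complex.exp (T / n) ^ m = Complex.exp (z / n) * 1 := by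
        rw [h, mul_one]
      exact mul_left_cancel₀ (Complex.exp_ne_zero _) h3
    exact hω.dvd_of_pow_eq_one m h2
  · rintro ⟨k, rfl⟩
    rw [pow_mul, hω.pow_eq_one, one_pow, mul_one]

theorem caseB_dec {σ : ℂ ≃+* ℂ} (hσ : ∀ z : ℂ, σ (Complex.exp z) = Complex.exp (σ z))
    (hI : σ Complex.I = Complex.I) {z : ℂ} (hz : σ z = z + T) (b : ℂ) (hb : b ≠ 0)
    (hfix : σ b = b) : ∃! j : ℤ, ∃ w : ℂ, σ w = w ∧ b = Complex.exp (j * z + w) := by
  have h0 : Complex.exp (Complex.log b) = b := Complex.exp_log hb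
  obtain ⟨j, hj⟩ := log_fixed hσ (z := Complex.log b) (by rw [h0]; exact hfix)
  refine ⟨j, ⟨Complex.log b - j * z, ?_, ?_⟩, ?_⟩
  · rw [map_sub, map_mul, map_intCast, hj, hz]
    ring
  · rw [add_sub_cancel, h0]
  · rintro j' ⟨w, hw, hbw⟩
    have h1 : Complex.exp (j' * z + w) = Complex.exp (Complex.log b) := by rw [h0, ← hbw]
    obtain ⟨k, hk⟩ := Complex.exp_eq_exp_iff_exists_int.1 h1
    have h2 := congrArg σ hk
    have hT : σ T = T := period hσ hI
    have hk' : (j' : ℂ) * z + w = Complex.log b + k * T := hk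
    have h2' : σ ((j' : ℂ) * z + w) = σ (Complex.log b + k * T) := by rw [hk']
    rw [map_add, map_mul, map_intCast, hz, hw, map_add, map_mul, map_intCast, hj, hT] at h2'
    have h3 : ((j' : ℂ) - j) * T = 0 := by linear_combination h2' - hk'
    have h4 : (j' : ℂ) - j = 0 := (mul_eq_zero.1 h3).resolve_right T_ne
    have h5 : (j' : ℂ) = j := sub_eq_zero.1 h4
    exact_mod_cast h5

/-- (1) The fixed field of an exponential automorphism `σ` with `σ i = i` is either (A) closed under all
logarithms, algebraically closed, and then it contains all elementary numbers, or (B) there is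
a number `z` with `σ z = z + 2 π i`, and then all fixed numbers and all numbers with finite orbits
(for instance, all numbers which are algebraic over the fixed field) are given by `z` and fixed
numbers as follows.

(2) For an exponential automorphism `σ` with `σ i = -i` the exponential function is a bijection from
the fixed field onto its nonzero squares, and all fixed numbers are plus or minus squares of fixed
numbers. Either (A) the fixed field of `σ²` is as in (1) (A), and then sums of squares are squares in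
the fixed field of `σ`, which is a real closed field; or (B) there is a number `z` with
`σ z = -z - π i`, and then `-1` is a sum of two squares in the fixed field of `σ`. -/
theorem result :
    (∀ σ : ℂ ≃+* ℂ, (∀ z : ℂ, σ (Complex.exp z) = Complex.exp (σ z)) → σ Complex.I = Complex.I →
      ((∀ w : ℂ, σ (Complex.exp w) = Complex.exp w → σ w = w) ∧
        (∀ m : ℕ, 1 ≤ m → ∀ x : ℂ, σ^[m] x = x → σ x = x) ∧
        (∀ p : Polynomial ℂ, p ≠ 0 → (∀ i, σ (p.coeff i) = p.coeff i) →
          ∀ x : ℂ, p.eval x = 0 → σ x = x) ∧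
        ∀ x : ℂ, Elementary x → σ x = x) ∨
      ∃ z : ℂ, σ z = z + 2 * Real.pi * Complex.I ∧
        (∀ b : ℂ, b ≠ 0 → σ b = b →
          ∃! j : ℤ, ∃ w : ℂ, σ w = w ∧ b = Complex.exp (j * z + w)) ∧
        (∀ n : ℕ, 1 ≤ n →
          (∀ m : ℕ, σ^[m] (Complex.exp (z / n)) = Complex.exp (z / n) ↔ n ∣ m) ∧
          ∀ x : ℂ, σ^[n] x = x → ∃ c : ℕ → ℂ, (∀ l, σ (c l) = c l) ∧
            x = ∑ l ∈ range n, c l * Complex.exp (z / n) ^ l) ∧
        ∀ p : Polynomial ℂ, p ≠ 0 → (∀ i, σ (p.coeff i) = p.coeff i) →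
          ∀ x : ℂ, p.eval x = 0 → ∃ n : ℕ, 1 ≤ n ∧ ∃ c : ℕ → ℂ, (∀ l, σ (c l) = c l) ∧
            x = ∑ l ∈ range n, c l * Complex.exp (z / n) ^ l) ∧
    (∀ σ : ℂ ≃+* ℂ, (∀ z : ℂ, σ (Complex.exp z) = Complex.exp (σ z)) → σ Complex.I = -Complex.I →
      (∀ a : ℂ, σ a = a → ∃ c : ℂ, σ c = c ∧ (a = c ^ 2 ∨ a = -c ^ 2)) ∧
      (∀ a : ℂ, a ≠ 0 → σ a = a → ∃! w : ℂ, σ w = w ∧ Complex.exp w = a ^ 2) ∧
      (((∀ w : ℂ, σ (σ (Complex.exp w)) = Complex.exp w → σ (σ w) = w) ∧
        (∀ m : ℕ, 1 ≤ m → ∀ x : ℂ, σ^[2 * m] x = x → σ (σ x) = x) ∧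
        (∀ p : Polynomial ℂ, p ≠ 0 → (∀ i, σ (σ (p.coeff i)) = p.coeff i) →
          ∀ x : ℂ, p.eval x = 0 → σ (σ x) = x) ∧
        (∀ x : ℂ, Elementary x → σ (σ x) = x) ∧
        ∀ a b : ℂ, σ a = a → σ b = b → ∃ c : ℂ, σ c = c ∧ a ^ 2 + b ^ 2 = c ^ 2) ∨
      ((∃ z : ℂ, σ z = -z - Real.pi * Complex.I) ∧
        ∃ u v : ℂ, σ u = u ∧ σ v = v ∧ u ^ 2 + v ^ 2 = -1))) := by
  have part1 : ∀ σ : ℂ ≃+* ℂ, (∀ z : ℂ, σ (Complex.exp z) = Complex.exp (σ z)) →
      σ Complex.I = Complex.I → (∀ w : ℂ, σ (Complex.exp w) = Complex.exp w → σ w = w) →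
      ((∀ w : ℂ, σ (Complex.exp w) = Complex.exp w → σ w = w) ∧
        (∀ m : ℕ, 1 ≤ m → ∀ x : ℂ, σ^[m] x = x → σ x = x) ∧
        (∀ p : Polynomial ℂ, p ≠ 0 → (∀ i, σ (p.coeff i) = p.coeff i) →
          ∀ x : ℂ, p.eval x = 0 → σ x = x) ∧
        ∀ x : ℂ, Elementary x → σ x = x) := by
    intro σ hσ hI hA
    have h1 := caseA hσ hI hA
    have h2 : ∀ p : Polynomial ℂ, p ≠ 0 → (∀ i, σ (p.coeff i) = p.coeff i) →
        ∀ x : ℂ, p.eval x = 0 → σ x = x := by
      intro p hp hc x hx
      obtain ⟨m, hm, hmx⟩ := periodic_of_root hp hc hx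
      exact h1 m hm x hmx
    refine ⟨hA, h1, h2, ?_⟩
    intro x hx
    induction hx with
    | one => exact map_one σ
    | sub a b _ _ iha ihb => rw [map_sub, iha, ihb]
    | mul a b _ _ iha ihb => rw [map_mul, iha, ihb]
    | inv a _ iha => rw [map_inv₀, iha]
    | exp a _ iha => rw [hσ, iha]
    | log a _ iha => exact hA a iha
    | root p hp _ x hx ih => exact h2 p hp ih x hx
  have hsq : ∀ σ : ℂ ≃+* ℂ, (∀ z : ℂ, σ (Complex.exp z) = Complex.exp (σ z)) →
      ∀ z : ℂ, (σ.trans σ) (Complex.exp z) = Complex.exp ((σ.trans σ) z) := by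
    intro σ hσ z
    show σ (σ (Complex.exp z)) = Complex.exp (σ (σ z))
    rw [hσ, hσ]
  have hsI : ∀ σ : ℂ ≃+* ℂ, σ Complex.I = -Complex.I → (σ.trans σ) Complex.I = Complex.I := by
    intro σ hI
    show σ (σ Complex.I) = Complex.I
    rw [hI, map_neg, hI, neg_neg]
  have hiter : ∀ σ : ℂ ≃+* ℂ, ∀ (m : ℕ) (x : ℂ), (σ.trans σ)^[m] x = σ^[2 * m] x := by
    intro σ m x
    induction m with
    | zero => rfl
    | succ m ih =>
      rw [iterate_succ_apply', ih]
      have : 2 * (m + 1) = (2 * m + 1) + 1 := by ring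
      rw [this, iterate_succ_apply', iterate_succ_apply']
      rfl
  refine ⟨?_, ?_⟩
  · intro σ hσ hI
    by_cases hA : ∀ w : ℂ, σ (Complex.exp w) = Complex.exp w → σ w = w
    · exact Or.inl (part1 σ hσ hI hA)
    · right
      obtain ⟨z, hz⟩ := exists_shift hσ hA
      refine ⟨z, hz, fun b hb hfix => caseB_dec hσ hI hz b hb hfix, fun n hn =>
        ⟨fun m => caseB_period hσ hI hz n hn m, fun x hx => caseB_sum hσ hI hz n hn x hx⟩, ?_⟩
      intro p hp hc x hx
      obtain ⟨m, hm, hmx⟩ := periodic_of_root hp hc hx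
      exact ⟨m, hm, caseB_sum hσ hI hz m hm x hmx⟩
  · intro σ hσ hI
    refine ⟨fun a ha => pm_square hI ha, fun a ha0 ha => exp_bij hσ hI ha0 ha, ?_⟩
    by_cases hA : ∀ w : ℂ, σ (σ (Complex.exp w)) = Complex.exp w → σ (σ w) = w
    · left
      obtain ⟨g1, g2, g3, g4⟩ := part1 (σ.trans σ) (hsq σ hσ) (hsI σ hI) hA
      refine ⟨hA, ?_, g3, g4, fun a b ha hb => sum_squares hσ hI hA ha hb⟩
      intro m hm x hx
      exact g2 m hm x (by rw [hiter]; exact hx)
    · right
      obtain ⟨z, hz⟩ := exists_shift_neg hσ hI hA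
      refine ⟨⟨z, ?_⟩, neg_one_sum hσ hI hz⟩
      rw [hz]
      unfold T
      ring

end Pool.Agent.Results.MP_2315c8_nt.FixedFields
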